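import Pool.Agent.H28.Semi2
import Pool.Agent.H28.Gauss2

namespace Pool.Agent.Results.MP_1d1d91_lc.InP

open Pool.Agent.H38.NP Pool.Agent.H28.Semi Pool.Agent.H28.Gauss2

/-- Every cycle on at least four vertices has a chord. -/
def Chordal {V : Type} (G : SimpleGraph V) : Prop :=
  ∀ (v : V) (c : G.Walk v v), c.IsCycle → 4 ≤ c.length → ¬ c.IsChordless

/-- `G` has an acyclic orientation `o` without shortcuts. -/
def SemiTransitive {V : Type} (G : SimpleGraph V) : Prop :=
  ∃ o : V → V → Prop, (∀ u v, G.Adj u v ↔ o u v ∨ o v u) ∧ (∀ u v, o u v → ¬ o v u) ∧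
    (∀ v, ¬ Relation.TransGen o v v) ∧
    ∀ k, 3 ≤ k → ∀ p : ℕ → V, (∀ i < k, o (p i) (p (i + 1))) → o (p 0) (p k) →
      ∀ i j, i < j → j ≤ k → o (p i) (p j)

section
variable {V : Type} [DecidableEq V] [Fintype V] {G : SimpleGraph V}

omit [DecidableEq V] in
theorem fwd (h : SemiTransitive G) : ∃ τ : V → V → ZMod 2,
    (∀ x y, G.Adj x y → τ x y + τ y x = 1) ∧ Dia G τ Finset.univ := by
  classical
  obtain ⟨o, h1, h2, h3, h4⟩ := h
  have t3 : ∀ x y z, o x y → o y z → ¬ o z x := fun x y z a b c =>
    h3 x (((Relation.TransGen.single a).tail b).tail c)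
  have s4 : ∀ w x y z, o w x → o x y → o y z → o w z → o w y ∧ o x z := fun w x y z a b c d => by
    have := h4 3 le_rfl (fun i => if i = 0 then w else if i = 1 then x else if i = 2 then y else z)
      (fun i hi => by interval_cases i <;> simpa) (by simpa)
    exact ⟨by simpa using this 0 2 (by omega) (by omega), by simpa using this 1 3 (by omega) le_rfl⟩
  refine ⟨fun x y => if o x y then 1 else 0, fun x y h => ?_, ?_⟩
  · rcases (h1 x y).1 h with e | e <;> simp [e, h2 _ _ e]
  · intro a _ d _ b _ c _ _ nad ab ac db dc bc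
    have n1 : ¬ o a d := fun e => nad ((h1 a d).2 (Or.inl e))
    have n2 : ¬ o d a := fun e => nad ((h1 a d).2 (Or.inr e))
    rcases (h1 _ _).1 ab with e1 | e1 <;> rcases (h1 _ _).1 ac with e2 | e2 <;>
      rcases (h1 _ _).1 db with e3 | e3 <;> rcases (h1 _ _).1 dc with e4 | e4 <;>
      simp only [e1, e2, e3, e4, h2 _ _ e1, h2 _ _ e2, h2 _ _ e3, h2 _ _ e4, if_true, if_false] <;>
      first
      | decide
      | (exfalso; rcases (h1 _ _).1 bc with e5 | e5 <;> grind)

theorem bwd (hG : Chordal G) {τ : V → V → ZMod 2} (as : ∀ x y, G.Adj x y → τ x y + τ y x = 1)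
    (hD : Dia G τ Finset.univ) : SemiTransitive G := by
  have sim := Pool.Agent.H20.Chordal.simplicial G hG
  obtain ⟨r, r1, r2, -⟩ := main sim as _ hD
  have ri : ∀ x y, G.Adj x y → r x ≠ r y := fun x y h e => h.ne (r1 (by simp) (by simp) e)
  have R1 : ∀ w x y z, G.Adj w x → G.Adj x y → G.Adj y z → G.Adj w z → G.Adj x z →
      r w < r x → r x < r y → r y < r z → G.Adj w y := by
    intro w x y z a b c d e l1 l2 l3
    by_contra hn
    have := r2 w (by simp) y (by simp) x (by simp) z (by simp) (by rintro rfl; omega) hn a d b.symm c e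
    unfold lt at this
    rw [if_neg (by omega), if_neg (by omega), if_pos l2, if_neg (by omega)] at this
    revert this; decide
  have R2 : ∀ w x y z, G.Adj w x → G.Adj x y → G.Adj y z → G.Adj w z → G.Adj w y →
      r w < r x → r x < r y → r y < r z → G.Adj x z := by
    intro w x y z a b c d e l1 l2 l3
    by_contra hn
    have := r2 x (by simp) z (by simp) w (by simp) y (by simp) (by rintro rfl; omega) hn a.symm b
      d.symm c.symm e
    unfold lt at this
    rw [if_pos l1, if_neg (by omega), if_pos (by omega), if_pos l3] at this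
    revert this; decide
  have mono : ∀ k (p : ℕ → V), (∀ i < k, r (p i) < r (p (i + 1))) → ∀ i j, i < j → j ≤ k →
      r (p i) < r (p j) := by
    intro k p h i j hij hj
    induction j, hij using Nat.le_induction with
    | base => exact h i (by omega)
    | succ j hij ih => exact (ih (by omega)).trans (h j (by omega))
  have K : ∀ k (p : ℕ → V), (∀ i < k, G.Adj (p i) (p (i + 1))) → (∀ i < k, r (p i) < r (p (i + 1))) →
      (0 < k → G.Adj (p 0) (p k)) → ∀ i j, i < j → j ≤ k → G.Adj (p i) (p j) := by
    intro k
    induction k with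
    | zero => intro p _ _ _ i j h1 h2; omega
    | succ k ih =>
      intro p a l e
      have m := mono _ p l
      have e := e (Nat.succ_pos _)
      rcases Nat.eq_zero_or_pos k with rfl | hk
      · intro i j h1 h2
        obtain rfl : i = 0 := by omega
        obtain rfl : j = 0 + 1 := by omega
        exact e
      have mem : ∀ i ≤ k + 1, p i ∈ (Finset.range (k + 2)).image p := fun i hi =>
        Finset.mem_image_of_mem p (Finset.mem_range.2 (by omega))
      have ne : ∀ i j, i < j → j ≤ k + 1 → p i ≠ p j := fun i j h1 h2 e => by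
        have := m i j h1 h2; rw [e] at this; omega
      obtain ⟨v, hv, hs⟩ := sim _ ⟨_, mem 0 (by omega)⟩
      obtain ⟨s, s1, rfl⟩ := Finset.mem_image.1 hv
      have s1 : s ≤ k + 1 := by have := Finset.mem_range.1 s1; omega
      have skip : (∀ i < k, G.Adj (p (if i < s then i else i + 1)) (p (if i + 1 < s then i + 1 else i + 1 + 1))) →
          G.Adj (p (if 0 < s then 0 else 0 + 1)) (p (if k < s then k else k + 1)) →
          ∀ i j, i < j → j ≤ k + 1 → i ≠ s → j ≠ s → G.Adj (p i) (p j) := by
        intro b1 b2 i j hij hj is js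
        have := ih (fun i => p (if i < s then i else i + 1)) b1
          (fun i hi => m _ _ (by split_ifs <;> omega) (by split_ifs <;> omega)) (fun _ => b2)
          (if i < s then i else i - 1) (if j < s then j else j - 1) (by split_ifs <;> omega)
          (by split_ifs <;> omega)
        convert this using 2 <;> split_ifs <;> omega
      rcases Nat.eq_zero_or_pos s with rfl | s0
      · have c := hs _ (mem 1 (by omega)) _ (mem (k + 1) le_rfl) (a 0 (by omega)) e
          (ne _ _ (by omega) le_rfl)
        have sk := skip (fun i hi => by simpa using a (i + 1) (by omega)) (by simpa using c)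
        intro i j hij hj
        rcases Nat.eq_zero_or_pos i with rfl | i0
        · by_cases j1 : j = 1
          · subst j1; exact a 0 (by omega)
          by_cases jk : j = k + 1
          · subst jk; exact e
          exact R1 _ (p 1) _ (p (k + 1)) (a 0 (by omega)) (sk _ _ (by omega) hj (by omega) (by omega))
            (sk _ _ (by omega) le_rfl (by omega) (by omega)) e c (m _ _ (by omega) (by omega))
            (m _ _ (by omega) (by omega)) (m _ _ (by omega) (by omega))
        · exact sk i j hij hj (by omega) (by omega)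
      by_cases sk1 : s = k + 1
      · subst sk1
        have c := hs _ (mem 0 (by omega)) _ (mem k (by omega)) e.symm (a k (by omega)).symm
          (ne _ _ (by omega) (by omega))
        have sk := skip (fun i hi => by
          rw [if_pos (by omega), if_pos (by omega)]; exact a i (by omega)) (by simpa using c)
        intro i j hij hj
        by_cases jk : j = k + 1
        · subst jk
          by_cases i0 : i = 0
          · subst i0; exact e
          by_cases ik : i = k
          · subst ik; exact a _ (by omega)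
          exact R2 (p 0) _ (p k) _ (sk _ _ (by omega) (by omega) (by omega) (by omega))
            (sk _ _ (by omega) (by omega) (by omega) (by omega)) (a k (by omega)) e c
            (m _ _ (by omega) (by omega)) (m _ _ (by omega) (by omega)) (m _ _ (by omega) (by omega))
        · exact sk i j hij hj (by omega) (by omega)
      obtain ⟨t, rfl⟩ : ∃ t, s = t + 1 := ⟨s - 1, by omega⟩
      have c := hs _ (mem t (by omega)) _ (mem (t + 1 + 1) (by omega)) (a t (by omega)).symm
        (a (t + 1) (by omega)) (ne _ _ (by omega) (by omega))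
      have sk := skip (fun i hi => by
        rcases lt_trichotomy i t with h | rfl | h
        · rw [if_pos (by omega), if_pos (by omega)]; exact a i (by omega)
        · rw [if_pos (by omega), if_neg (by omega)]; exact c
        · rw [if_neg (by omega), if_neg (by omega)]; exact a _ (by omega)) (by
        rw [if_pos (by omega), if_neg (by omega)]; exact e)
      intro i j hij hj
      by_cases js : j = t + 1
      · subst js
        by_cases it : i = t
        · subst it; exact a _ (by omega)
        exact R1 _ (p t) _ (p (t + 1 + 1)) (sk _ _ (by omega) (by omega) (by omega) (by omega))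
          (a t (by omega)) (a _ (by omega)) (sk _ _ (by omega) (by omega) (by omega) (by omega)) c
          (m _ _ (by omega) (by omega)) (m _ _ (by omega) (by omega)) (m _ _ (by omega) (by omega))
      by_cases is : i = t + 1
      · subst is
        by_cases jt : j = t + 1 + 1
        · subst jt; exact a _ (by omega)
        exact R2 (p t) _ (p (t + 1 + 1)) _ (a t (by omega)) (a _ (by omega))
          (sk _ _ (by omega) (by omega) (by omega) (by omega))
          (sk _ _ (by omega) (by omega) (by omega) (by omega)) c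
          (m _ _ (by omega) (by omega)) (m _ _ (by omega) (by omega)) (m _ _ (by omega) (by omega))
      exact sk i j hij hj is js
  refine ⟨fun x y => G.Adj x y ∧ r x < r y, fun u v => ⟨fun h => ?_, ?_⟩, fun u v h h' => ?_,
    fun v h => ?_, fun k _ p h e i j hij hj => ⟨K k p (fun i hi => (h i hi).1)
      (fun i hi => (h i hi).2) (fun _ => e.1) i j hij hj, mono k p (fun i hi => (h i hi).2) i j hij hj⟩⟩
  · rcases lt_or_gt_of_ne (ri u v h) with l | l
    exacts [Or.inl ⟨h, l⟩, Or.inr ⟨h.symm, l⟩]
  · rintro (h | h)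
    exacts [h.1, h.1.symm]
  · have := h.2; have := h'.2; omega
  · have : ∀ x y, Relation.TransGen (fun x y => G.Adj x y ∧ r x < r y) x y → r x < r y := by
      intro x y h
      induction h with
      | single h => exact h.2
      | tail _ h ih => exact ih.trans h.2
    exact lt_irrefl _ (this v v h)
end

def adj (E : List (ℕ × ℕ)) (x y : ℕ) : Bool :=
  decide (x ≠ y) && (E.contains (x, y) || E.contains (y, x))

def ix (n x y : ℕ) : ℕ := 1 + (n * x + y)

def eqs (n : ℕ) (E : List (ℕ × ℕ)) : List (List ℕ) :=
  ((((List.range n).product (List.range n)).filter fun p => adj E p.1 p.2).map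
    fun p => [0, ix n p.1 p.2, ix n p.2 p.1]) ++
  (((((List.range n).product (List.range n)).product
    ((List.range n).product (List.range n))).filter fun p => decide (p.1.1 ≠ p.1.2) &&
      !adj E p.1.1 p.1.2 && adj E p.1.1 p.2.1 && adj E p.1.1 p.2.2 && adj E p.1.2 p.2.1 &&
      adj E p.1.2 p.2.2 && adj E p.2.1 p.2.2).map
    fun p => [ix n p.2.1 p.1.1, ix n p.2.2 p.1.1, ix n p.2.1 p.1.2, ix n p.2.2 p.1.2])

theorem adj_iff {n E} (u v : Fin n) : adj E u v = true ↔ (graphOf n E).Adj u v := by
  simp [adj, graphOf_adj, Fin.ext_iff]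

theorem ix_lt {n x y : ℕ} (hx : x < n) (hy : y < n) : ix n x y < n * n + 1 := by
  have : n * (x + 1) ≤ n * n := Nat.mul_le_mul_left _ hx
  unfold ix; rw [Nat.mul_succ] at this; omega

theorem eqs_all {n E} {P : List ℕ → Prop} : (∀ r ∈ eqs n E, P r) ↔
    (∀ x y : Fin n, (graphOf n E).Adj x y → P [0, ix n x y, ix n y x]) ∧
    ∀ a d b c : Fin n, a ≠ d → ¬ (graphOf n E).Adj a d → (graphOf n E).Adj a b →
      (graphOf n E).Adj a c → (graphOf n E).Adj d b → (graphOf n E).Adj d c →
      (graphOf n E).Adj b c → P [ix n b a, ix n c a, ix n b d, ix n c d] := by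
  simp only [eqs, List.forall_mem_append, List.forall_mem_map, List.mem_filter, Prod.forall,
    List.pair_mem_product, List.mem_range, ← adj_iff, Bool.and_eq_true, decide_eq_true_eq,
    Bool.not_eq_true', ne_eq, Fin.ext_iff, Bool.not_eq_true, and_imp]
  exact and_congr ⟨fun h x y => h x y x.2 y.2, fun h x y hx hy => h ⟨x, hx⟩ ⟨y, hy⟩⟩
    ⟨fun h a d b c => h a d b c a.2 d.2 b.2 c.2,
      fun h a d b c ha hd hb hc => h ⟨a, ha⟩ ⟨d, hd⟩ ⟨b, hb⟩ ⟨c, hc⟩⟩

theorem result : InPOn (fun p : ℕ × List (ℕ × ℕ) => Chordal (graphOf p.1 p.2))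
    (fun p => SemiTransitive (graphOf p.1 p.2)) := by
  refine inPOn_of_pt (fun p => gauss (p.1 * p.1 + 1) (eqs p.1 p.2))
    (pt_gauss (by fun_prop) (by unfold eqs adj ix; fun_prop)) ?_
  rintro ⟨n, E⟩ hG
  rw [gauss_spec (Nat.succ_pos _) (eqs_all.2 ⟨fun x y _ => ?_, fun a d b c _ _ _ _ _ _ _ => ?_⟩)]
  · simp only [eqs_all, List.map_cons, List.map_nil, List.sum_cons, List.sum_nil, add_zero]
    constructor
    · intro h
      obtain ⟨τ, h1, h2⟩ := fwd h
      obtain ⟨x, x0, hx⟩ : ∃ x : ℕ → ZMod 2, x 0 = 1 ∧ ∀ u v : Fin n, x (ix n u v) = τ u v := by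
        refine ⟨fun i => if h : 0 < i ∧ (i - 1) / n < n ∧ (i - 1) % n < n then
          τ ⟨_, h.2.1⟩ ⟨_, h.2.2⟩ else 1, by simp, fun u v => ?_⟩
        have e0 : ix n u v - 1 = n * u + v := by unfold ix; omega
        have e1 : (ix n u v - 1) / n = u := by
          rw [e0, Nat.mul_add_div u.pos, Nat.div_eq_of_lt v.2, add_zero]
        have e2 : (ix n u v - 1) % n = v := by
          rw [e0, Nat.mul_add_mod, Nat.mod_eq_of_lt v.2]
        beta_reduce
        rw [dif_pos ⟨by unfold ix; omega, by rw [e1]; exact u.2, by rw [e2]; exact v.2⟩]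
        congr 1 <;> exact Fin.ext (by assumption)
      refine ⟨x, x0, fun u v h => ?_, fun a d b c q1 q2 q3 q4 q5 q6 q7 => ?_⟩
      · rw [x0, hx, hx, h1 u v h]; rfl
      · simp only [hx, ← add_assoc]
        exact h2 a (by simp) d (by simp) b (by simp) c (by simp) q1 q2 q3 q4 q5 q6 q7
    · rintro ⟨x, x0, h1, h2⟩
      refine bwd hG (τ := fun u v => x (ix n u v)) (fun u v h => ?_)
        fun a _ d _ b _ c _ q1 q2 q3 q4 q5 q6 q7 => ?_
      · have := h1 u v h
        rw [x0] at this
        linear_combination this - z0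
      · simpa only [← add_assoc] using h2 a d b c q1 q2 q3 q4 q5 q6 q7
  · simp only [List.forall_mem_cons, List.not_mem_nil, IsEmpty.forall_iff, implies_true, and_true]
    exact ⟨Nat.succ_pos _, ix_lt x.2 y.2, ix_lt y.2 x.2⟩
  · simp only [List.forall_mem_cons, List.not_mem_nil, IsEmpty.forall_iff, implies_true, and_true]
    exact ⟨ix_lt b.2 a.2, ix_lt c.2 a.2, ix_lt b.2 d.2, ix_lt c.2 d.2⟩

end Pool.Agent.Results.MP_1d1d91_lc.InP
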